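import Pool.Agent.Lib.MP_dee342_nt.CountFar

/-! The counting lemmas for integers near an arbitrary centre `c`. -/

set_option autoImplicit false

namespace Pool.Agent.Lib.MP_dee342_nt.Iv

open Finset Real Pool.Agent.Lib.MP_dee342_nt.Count

theorem shift_cos {ι : Type} (s : Finset ι) (g x : ι → ℝ) (y : ℝ) :
    ∑ i ∈ s, g i * cos (2 * π * (x i + y)) ≤ ‖∑ i ∈ s, (g i : ℂ) * ee (x i)‖ := by
  have h : ∑ i ∈ s, g i * cos (2 * π * (x i + y)) =
      ((∑ i ∈ s, (g i : ℂ) * ee (x i)) * ee y).re := by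
    rw [sum_mul, Complex.re_sum]
    exact sum_congr rfl fun i _ => by rw [mul_assoc (g i : ℂ), ← ee_add, Complex.re_ofReal_mul, re_ee]
  rw [h]
  exact (Complex.re_le_norm _).trans (by rw [norm_mul, norm_ee, mul_one])

theorem sum_bw_le {a : ℕ} (ha : Odd a) (G B : ℕ) (c : ℤ) (A : Finset ℤ)
    (hA : ∀ n ∈ A, |n - c| ≤ 2 ^ (G * B)) (F : (Fin B → Fin G → Bool) → ℝ) (hF : ∀ w, 0 ≤ F w) :
    ∑ n ∈ A, F (bw a G B n) ≤ 3 * ∑ w, F w := by
  obtain ⟨u, hu⟩ := exists_inv ha (G * B)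
  have h2 : (0 : ℤ) < 2 ^ (G * B) := by positivity
  have haz : Odd (a : ℤ) := by exact_mod_cast ha
  let g : ℤ → ℤ × (Fin B → Fin G → Bool) := fun n => ((n - c) / 2 ^ (G * B), bw a G B n)
  have hinj : Set.InjOn g A := by
    intro n _ m _ h
    have h3 : (n - c) / 2 ^ (G * B) = (m - c) / 2 ^ (G * B) := congrArg Prod.fst h
    have h4 : bw a G B n = bw a G B m := congrArg Prod.snd h
    have h5 := (dvd_Phi haz G B hu m).sub (dvd_Phi haz G B hu n)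
    rw [h4, add_sub_add_right_eq_sub, ← sub_sub_sub_cancel_right m n c] at h5
    have h6 : (n - c) % 2 ^ (G * B) = (m - c) % 2 ^ (G * B) := Int.modEq_iff_dvd.mpr h5
    rw [← sub_left_inj (a := c), ← Int.mul_ediv_add_emod (n - c) (2 ^ (G * B)),
      ← Int.mul_ediv_add_emod (m - c) (2 ^ (G * B)), h3, h6]
  calc _ = ∑ x ∈ A.image g, F x.2 := (sum_image (f := fun x => F x.2) hinj).symm
    _ ≤ ∑ x ∈ Icc (-1 : ℤ) 1 ×ˢ univ, F x.2 := by
        refine sum_le_sum_of_subset_of_nonneg (fun x hx => ?_) fun _ _ _ => hF _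
        obtain ⟨n, hn, rfl⟩ := mem_image.mp hx
        have h3 := abs_le.mp (hA n hn)
        exact mem_product.mpr ⟨mem_Icc.mpr ⟨Int.le_ediv_of_mul_le h2 (by omega),
          Int.ediv_le_of_le_mul h2 (by omega)⟩, mem_univ _⟩
    _ = _ := by
        rw [sum_product]
        simp only [sum_const, Int.card_Icc, nsmul_eq_mul]
        norm_num [Int.toNat]

theorem card_le_of_wn {a : ℕ} (ha : Odd a) {p : ℝ} (h0 : 0 ≤ p) (h1 : p ≤ 1) (j : ℕ) (ω : ℝ)
    (c : ℤ) (A : Finset ℤ) (hA : ∀ n ∈ A, |n - c| ≤ 2 ^ j ∧ ω ≤ wn p a j n) :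
    A.card * ω ≤ 3 := by
  have h := sum_bw_le ha j 1 c A (fun n hn => by simpa using (hA n hn).1)
    (fun w => ∏ b, wt p (w b)) fun w => prod_nonneg fun b _ => wt_nonneg h0 h1 _
  rw [sum_prod_wt j 1 fun _ v => wt p v] at h
  simp only [sum_wt, prod_const_one, mul_one, prod_bw] at h
  rw [← nsmul_eq_mul]
  exact (card_nsmul_le_sum _ _ _ fun n hn => (hA n hn).2).trans h

theorem card_box (L : ℕ) (c : ℤ) (A : Finset ℤ) (hA : ∀ n ∈ A, |n - c| ≤ 2 ^ L) :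
    (A.card : ℝ) ≤ 3 * 2 ^ L := by
  rw [← card_image_of_injective A (sub_left_injective (b := c))]
  refine Count.card_box L _ fun n hn => ?_
  obtain ⟨m, hm, rfl⟩ := mem_image.mp hn
  exact hA m hm

theorem fej_near {a u : ℤ} (ha : Odd a) (G B k l : ℕ) (hu : (2 : ℤ) ^ (G * B) ∣ a * u - 1)
    (hN : l + k + 3 ≤ G * B) {c n : ℤ} (hn : |n - c| ≤ 2 ^ l) :
    ((2 : ℝ) ^ k) ^ 2 / 2 ≤ Fej (2 ^ k) (Phi a u (bw a G B n) / 2 ^ (G * B) + c / 2 ^ (G * B)) := by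
  obtain ⟨z, hz⟩ := dvd_Phi ha G B hu n
  have h2 : (Phi a u (bw a G B n) : ℝ) / 2 ^ (G * B) + c / 2 ^ (G * B) =
      -(n - c) / 2 ^ (G * B) + z := by
    have h3 : (n : ℝ) + Phi a u (bw a G B n) = 2 ^ (G * B) * z := by exact_mod_cast hz
    field_simp
    linarith
  rw [h2]
  refine le_trans (le_of_eq (by push_cast; rfl)) (Fej_ge _ _ z ?_)
  have h3 : |(n : ℝ) - c| ≤ 2 ^ l := by exact_mod_cast hn
  have h4 : (2 : ℝ) ^ (l + k + 3) ≤ 2 ^ (G * B) := pow_le_pow_right₀ (by norm_num) hN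
  rw [abs_div, abs_neg, abs_of_pos (a := (2 : ℝ) ^ _) (by positivity), ← mul_div_assoc,
    div_le_iff₀ (by positivity)]
  rw [pow_add, pow_add] at h4
  push_cast
  have := mul_le_mul_of_nonneg_left h3 (show (0 : ℝ) ≤ 2 ^ k by positivity)
  linarith

end Pool.Agent.Lib.MP_dee342_nt.Iv
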