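import Pool.Agent.Lib.MP_dee342_nt.Iv.Two

/-! In every interval few integers have an orbit that grows by at most a small power. -/

set_option autoImplicit false

namespace Pool.Agent.Lib.MP_dee342_nt.Iv

open Finset Real Filter Pool.Agent.Lib.MP_dee342_nt.Count

theorem rise3 {a : ℕ} (ha : Odd a) (ha3 : 3 ≤ a) {τ : ℝ} (hτ : log 2 = τ * log a) (h0 : 0 ≤ τ)
    {j M L l : ℕ} {n : ℤ} (hl : l + 1 ≤ L) (h1 : 2 ^ l ≤ |n|)
    (h2 : |(T a)^[j] n| ≤ 2 ^ M * max |n| (2 ^ L)) :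
    (cnt (wd a j n) : ℝ) ≤ τ * (j + (M + L : ℕ) + 1 - l) ∨ (cnt (wd a j n) : ℝ) + l ≤ j := by
  rcases le_total |n| (2 ^ L) with h | h
  · rw [max_eq_right h, ← pow_add] at h2
    exact rise2 ha ha3 hτ h1 h2
  rw [max_eq_left h] at h2
  have h3 : n.natAbs ≠ 0 := fun e => by
    rw [Int.natAbs_eq_zero.mp e, abs_zero] at h
    exact absurd h (not_le.mpr (by positivity))
  have h4 : (2 : ℤ) ^ Nat.log 2 n.natAbs ≤ |n| := by
    rw [← Int.natCast_natAbs]
    exact_mod_cast Nat.pow_log_le_self 2 h3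
  have h5 : |n| < (2 : ℤ) ^ (Nat.log 2 n.natAbs + 1) := by
    rw [← Int.natCast_natAbs]
    exact_mod_cast Nat.lt_pow_succ_log_self one_lt_two _
  generalize Nat.log 2 n.natAbs = k at h4 h5
  have h6 : L < k + 1 := (pow_lt_pow_iff_right₀ (one_lt_two (α := ℤ))).mp (h.trans_lt h5)
  have h7 : (l : ℝ) + 1 ≤ L := by exact_mod_cast hl
  have h8 : (l : ℝ) ≤ k := by exact_mod_cast (by omega : l ≤ k)
  refine (rise2 (M := M + (k + 1)) ha ha3 hτ h4 (h2.trans ?_)).imp (fun e => e.trans ?_)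
    fun e => by linarith
  · rw [pow_add]
    exact mul_le_mul_of_nonneg_left h5.le (by positivity)
  · refine mul_le_mul_of_nonneg_left ?_ h0
    push_cast
    linarith

theorem far {a : ℕ} (ha : Odd a) (ha5 : 5 ≤ a) {θ : ℝ} (hθ1 : 1 ≤ θ) (hθ2 : θ ≤ log a / log 4) :
    ∃ δ > 0, ∃ C : ℝ, ∀ x : ℝ, 1 ≤ x → ∀ o : ℤ,
      ({n : ℤ | |(n : ℝ) - o| ≤ x ∧ ∀ j : ℕ, j ≤ 2 * logb 2 x →
        |(((T a)^[j] n : ℤ) : ℝ)| ≤ x ^ (θ - 1 + δ) * max |(n : ℝ)| x}.ncard : ℝ) ≤
        C * x ^ (binEntropy (θ * (log 2 / log a)) / log 2 - δ) := by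
  classical
  have ha3 : 3 ≤ a := by omega
  have l2 := log_pos (one_lt_two (α := ℝ))
  have l3 : log 4 = 2 * log 2 := by
    rw [show (4 : ℝ) = 2 ^ 2 by norm_num, log_pow]
    norm_num
  have l4 : 2 * log 2 < log a := by
    have h : (5 : ℝ) ≤ a := by exact_mod_cast ha5
    rw [← l3]
    exact log_lt_log (by norm_num) (by linarith)
  have la : 0 < log a := by linarith
  set τ := log 2 / log a with hτ
  have l5 : log 2 = τ * log a := by rw [hτ, div_mul_cancel₀ _ la.ne']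
  have t0 : 0 < τ := div_pos l2 la
  have t2 : τ < 1 / 2 := by rw [hτ, div_lt_iff₀ la]; linarith
  have t1 : τ < 1 := by linarith
  set p := θ * τ with hp
  have h3 : τ ≤ p := le_mul_of_one_le_left t0.le hθ1
  have h0 : 0 < p := by linarith
  have h2 : p ≤ 1 / 2 := by
    rw [le_div_iff₀ (by linarith), l3] at hθ2
    rw [hp, hτ, ← mul_div_assoc, div_le_iff₀ la]
    linarith
  have h1 : p < 1 := by linarith
  have hl : 0 ≤ log (1 - p) - log p := sub_nonneg.mpr (log_le_log h0 (by linarith))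
  have hl' : 0 ≤ log (1 - τ) - log τ := sub_nonneg.mpr (log_le_log t0 (by linarith))
  have hκ : log (1 - p) < 0 := log_neg (by linarith) (by linarith)
  have hH : binEntropy p + log (1 - p) = p * (log (1 - p) - log p) := by
    rw [binEntropy, log_inv, log_inv]
    ring
  obtain ⟨T1, hT1⟩ := exists_nat_ge (1 / τ)
  obtain ⟨G, hG, S, hT, δ, hδ, C, hC, h⟩ := Iv.core2 ha ha3 h0 h1 t0.le t1.le (binEntropy p)
    (binEntropy_lt_log_two.mpr (by linarith [t2.ne, one_div (2 : ℝ)] : τ ≠ 2⁻¹)) T1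
  have hT2 : 1 ≤ S * τ := (div_le_iff₀ t0).mp (hT1.trans (by exact_mod_cast hT))
  obtain ⟨c, hc0, hc1, hc2⟩ : ∃ c : ℝ, 0 < c ∧ log (1 - p) - log p ≤ c ∧
      log (1 - τ) - log τ ≤ c :=
    ⟨log (1 - p) - log p + (log (1 - τ) - log τ) + 1, by linarith, by linarith, by linarith⟩
  obtain ⟨ζ, hζ0, hζ1, hζ2⟩ : ∃ ζ : ℝ, 0 < ζ ∧ 4 * ζ * c ≤ δ ∧ ζ < p := by
    refine ⟨min (δ / (4 * c)) (p / 2), lt_min (by positivity) (by linarith), ?_,
      (min_le_right _ _).trans_lt (by linarith)⟩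
    have := (le_div_iff₀ (by positivity)).mp (min_le_left (δ / (4 * c)) (p / 2))
    linarith
  obtain ⟨m, hm⟩ := exists_nat_ge (2 / ζ)
  have hm2 : 2 ≤ m * ζ := (div_le_iff₀ hζ0).mp hm
  have hm3 : 3 ≤ m := by
    have e1 := mul_le_mul_of_nonneg_left (hζ2.le.trans h2) (Nat.cast_nonneg (α := ℝ) m)
    exact_mod_cast (by linarith : (3 : ℝ) ≤ m)
  have hS3 : 3 ≤ S := by
    have e1 := mul_le_mul_of_nonneg_left t2.le (Nat.cast_nonneg (α := ℝ) S)
    have e2 : (2 : ℝ) < S := by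
      by_contra e3
      linarith [mul_le_mul_of_nonneg_right (not_lt.mp e3) t0.le]
    exact_mod_cast e2
  have hm1 : 1 ≤ m := Nat.pos_of_ne_zero fun h => by rw [h] at hm2; norm_num at hm2
  have hm1' : (1 : ℝ) ≤ m := by exact_mod_cast hm1
  obtain ⟨η, hη0, hη1, hη2⟩ : ∃ η : ℝ, 0 < η ∧ η ≤ ζ ∧ η * c ≤ -log (1 - p) / (2 * m) :=
    ⟨min ζ (-log (1 - p) / (2 * m) / c),
      lt_min hζ0 (div_pos (div_pos (by linarith) (by linarith)) hc0), min_le_left _ _,
      (le_div_iff₀ hc0).mp (min_le_right _ _)⟩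
  have hlow : binEntropy (p - ζ) < binEntropy p :=
    binEntropy_strictMonoOn ⟨by linarith, by linarith [one_div (2 : ℝ)]⟩
      ⟨h0.le, by linarith [one_div (2 : ℝ)]⟩ (by linarith)
  have hE : 1 ≤ G * S :=
    Nat.mul_pos hG (Nat.pos_of_ne_zero fun h => by rw [h] at hT2; norm_num at hT2)
  have hE' : (1 : ℝ) ≤ (G * S : ℕ) := by exact_mod_cast hE
  set H := binEntropy p with hHp
  obtain ⟨δ', hδ1, hδ2, hδ3, hδ4, hδ5⟩ : ∃ δ' : ℝ, 0 < δ' ∧ δ' ≤ δ ∧
      δ' ≤ H - binEntropy (p - ζ) ∧ δ' ≤ -log (1 - p) / (2 * m) ∧ δ' ≤ η * log 2 :=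
    ⟨min (min δ (H - binEntropy (p - ζ))) (min (-log (1 - p) / (2 * m)) (η * log 2)),
      lt_min (lt_min hδ (by linarith)) (lt_min (div_pos (by linarith) (by linarith))
        (by positivity)), (min_le_left _ _).trans (min_le_left _ _),
      (min_le_left _ _).trans (min_le_right _ _), (min_le_right _ _).trans (min_le_left _ _),
      (min_le_right _ _).trans (min_le_right _ _)⟩
  have hδ6 : δ' ≤ H := hδ4.trans ((div_le_self (by linarith) (by linarith)).trans
    (by linarith [mul_nonneg h0.le hl]))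
  refine ⟨δ' / log 2, div_pos hδ1 l2, (3 * 2 ^ (G * S * m) +
    (3 / p * exp (3 * c - log (1 - p)) + (3 + C))) * exp ((H - δ') * (G * S : ℕ)),
    fun x hx o => ?_⟩
  let A : ℕ → Finset ℤ := fun L => (Icc (o - 2 ^ L) (o + 2 ^ L)).filter fun n =>
    ∀ j, j + 2 * (G * S) ≤ 2 * L → |(T a)^[j] n| ≤ 2 ^ ⌈(θ - 1 + η) * L⌉₊ * max |n| (2 ^ L)
  have hA : ∀ L n, n ∈ A L ↔ |n - o| ≤ 2 ^ L ∧ ∀ j, j + 2 * (G * S) ≤ 2 * L →
      |(T a)^[j] n| ≤ 2 ^ ⌈(θ - 1 + η) * L⌉₊ * max |n| (2 ^ L) := fun L n => by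
    simp only [A, mem_filter, mem_Icc, abs_le (a := n - o), neg_le_sub_iff_le_add,
      sub_le_iff_le_add, add_comm o]
  refine (final2 (H := H) hE hδ6 (C := 3 * 2 ^ (G * S * m) +
    (3 / p * exp (3 * c - log (1 - p)) + (3 + C))) (by positivity)
    (fun D => (A (G * S * D)).card)
    (fun D => ?_) hx).elim fun D h4 => le_trans (ncard_le fun n hn => (hA _ n).mpr
      ⟨mem_box (by exact_mod_cast hn.1) h4.1, fun j hj => by
        have e1 : (j : ℝ) + 2 * (G * S : ℕ) ≤ 2 * (G * S * D : ℕ) := by exact_mod_cast hj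
        exact_mod_cast (hn.2 j (by linarith [h4.2.1])).trans (mul_le_mul
          (rpow_box (t := θ - 1 + η) hx h4.1 (by linarith [div_pos hδ1 l2])
            (by linarith [(div_le_iff₀ l2).mpr hδ5])) (max_le_max le_rfl h4.1)
          (le_max_of_le_left (abs_nonneg _)) (by positivity))⟩) h4.2.2
  set L := G * S * D with hL
  have e0 : exp ((H - δ') * (G * S : ℕ)) ^ D = exp ((H - δ') * L) := by
    rw [← exp_nat_mul, mul_comm (D : ℝ), mul_assoc, ← Nat.cast_mul]
  have hL0 : (0 : ℝ) ≤ L := by positivity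
  rw [e0, add_mul]
  rcases le_total D m with hD | hD
  · refine (Iv.card_box L o _ fun n hn => ((hA _ n).mp hn).1).trans (le_add_of_le_of_nonneg
      (le_trans ?_ (le_mul_of_one_le_right (by positivity)
        (one_le_exp (mul_nonneg (by linarith) hL0)))) (by positivity))
    exact mul_le_mul_of_nonneg_left (pow_le_pow_right₀ one_le_two (Nat.mul_le_mul_left _ hD))
      (by norm_num)
  refine le_add_of_nonneg_of_le (by positivity) ?_
  set L' := L - L / m with hL'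
  set M₀ := ⌈(θ - 1 + η) * L⌉₊ with hM₀
  obtain ⟨M, hM⟩ : ∃ M, M = M₀ + L := ⟨_, rfl⟩
  have eM : (M : ℝ) ≤ (θ + η) * L + 1 := by
    have := (Nat.ceil_lt_add_one (mul_nonneg (show 0 ≤ θ - 1 + η by linarith) hL0)).le
    rw [hM, Nat.cast_add]
    linarith
  have e1 : G * (D * S) = L := by rw [hL]; ring
  have hD' : (m : ℝ) ≤ D := by exact_mod_cast hD
  have e2 : (m : ℝ) ≤ L := by
    rw [hL, Nat.cast_mul]
    exact hD'.trans (le_mul_of_one_le_left (by positivity) hE')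
  have e3 : (L : ℝ) ≤ L' + L / m ∧ L' + (L : ℝ) / m ≤ L + 1 := by
    rw [hL', Nat.cast_sub (Nat.div_le_self _ _)]
    constructor <;> linarith [div_real L m hm1]
  have e5 : (0 : ℝ) ≤ L / m := by positivity
  have e4 : (L : ℝ) / m ≤ ζ * L := by
    have := mul_le_mul_of_nonneg_left hm2 e5
    rw [← mul_assoc, div_mul_cancel₀ _ (by linarith)] at this
    linarith
  have e6 : 2 ≤ ζ * L := by linarith [mul_le_mul_of_nonneg_right e2 hζ0.le]
  have e7 : η * L ≤ ζ * L := mul_le_mul_of_nonneg_right hη1 hL0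
  have e8 : ((G * D : ℕ) : ℝ) ≤ p * L := by
    have e9 : (L : ℝ) = (G * D : ℕ) * S := by rw [hL]; push_cast; ring
    have e10 : (0 : ℝ) ≤ (G * D : ℕ) := Nat.cast_nonneg _
    rw [e9]
    linarith [mul_le_mul_of_nonneg_left hT2 e10,
      mul_le_mul_of_nonneg_left h3 (mul_nonneg e10 (Nat.cast_nonneg (α := ℝ) S))]
  have eτM : τ * M ≤ p * L + η * L + 1 := by
    have := mul_le_mul_of_nonneg_left eM t0.le
    have e9 := mul_le_mul_of_nonneg_right t1.le (show 0 ≤ η * L by positivity)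
    rw [hp]
    linarith
  have e9 : 3 * (G * S) ≤ L ∧ 3 * (G * D) ≤ L := by
    constructor
    · rw [hL, mul_comm 3]
      exact Nat.mul_le_mul_left _ (hm3.trans hD)
    · rw [← e1, mul_comm 3, mul_assoc]
      exact Nat.mul_le_mul_left _ (Nat.mul_le_mul_left _ hS3)
  have eL : L' + 1 ≤ L := by
    have e10 : m ≤ L := by exact_mod_cast e2
    have := (Nat.le_div_iff_mul_le hm1).mpr ((one_mul m).trans_le e10)
    omega
  have key : ∀ i : ℕ, (i : ℝ) ≤ p * L → 3 * i ≤ L → ∀ n ∈ A L, ¬ |n| ≤ 2 ^ L' →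
      (cnt (wd a (L + i) n) : ℝ) ≤ p * L + τ * i + 3 * (ζ * L) := by
    intro i hi hi' n hn1 hn2
    have hi0 : (0 : ℝ) ≤ τ * i := by positivity
    rcases rise3 ha ha3 l5 t0.le eL (not_le.mp hn2).le (((hA _ _).mp hn1).2 (L + i) (by omega))
      with h5 | h5
    · rw [← hM] at h5
      push_cast at h5
      have e9 := mul_le_mul_of_nonneg_left e3.1 t0.le
      have e10 := mul_le_mul_of_nonneg_right t1.le e5
      linarith
    · push_cast at h5
      linarith [e3.1]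
  have h5 := h D (hm1.trans hD) o (((A L).filter fun n => ¬ |n| ≤ 2 ^ L').filter fun n =>
      ¬ (cnt (wd a L n) : ℝ) ≤ (p - ζ) * L) fun n hn => by
    obtain ⟨hn1, hn2⟩ := mem_filter.mp hn
    obtain ⟨hn3, hn4⟩ := mem_filter.mp hn1
    have k1 := key 0 (by rw [Nat.cast_zero]; positivity) (by omega) n hn3 hn4
    have k2 := key (G * D) e8 e9.2 n hn3 hn4
    rw [cnt_add, Nat.cast_add] at k2
    rw [add_zero, Nat.cast_zero, mul_zero, add_zero] at k1
    have k3 := mul_le_mul_of_nonneg_right hζ1 hL0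
    have k4 : 0 ≤ ζ * L := by linarith
    rw [e1]
    refine ⟨((hA _ _).mp hn3).1, wn_ge h0 h1 _ L n ?_, ?_⟩
    · have k5 := mul_le_mul_of_nonneg_right (show (cnt (wd a L n) : ℝ) - p * L ≤ 4 * (ζ * L) by
        linarith) hl
      linarith [mul_le_mul_of_nonneg_left hc1 k4]
    · rw [wn_eq t0 t1, exp_le_exp]
      have k5 := mul_le_mul_of_nonneg_right (show (cnt (wd a (G * D) ((T a)^[L] n)) : ℝ) -
        τ * (G * D : ℕ) ≤ 4 * (ζ * L) by linarith [not_le.mp hn2]) hl'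
      linarith [mul_le_mul_of_nonneg_left hc2 k4]
  have h6 := shell2 ha h0 h2 (R := p * L + η * L + 3) (by positivity) L'
    ((A L).filter fun n => |n| ≤ 2 ^ L') fun n hn => ⟨(mem_filter.mp hn).2, fun i hi => by
      have k1 : i ≤ L' := (pow_le_pow_iff_right₀ one_lt_two).mp (hi.trans (mem_filter.mp hn).2)
      have k2 := ((hA _ _).mp (mem_filter.mp hn).1).2 (i + 1) (by omega)
      rw [max_eq_right ((mem_filter.mp hn).2.trans (pow_le_pow_right₀ one_le_two (by omega))),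
        ← pow_add, ← hM] at k2
      rcases rise2 ha ha3 l5 hi k2 with h7 | h7
      · push_cast at h7
        linarith
      · push_cast at h7
        have : 0 ≤ p * L + η * L := by positivity
        linarith⟩
  have h7 := Iv.card_le_of_wn ha (p := p - ζ) (by linarith) (by linarith) L
    (exp (-(binEntropy (p - ζ) + 0) * L)) o (((A L).filter fun n => ¬ |n| ≤ 2 ^ L').filter fun n =>
      (cnt (wd a L n) : ℝ) ≤ (p - ζ) * L) fun n hn => ⟨((hA _ _).mp
        (mem_filter.mp (mem_filter.mp hn).1).1).1, wn_ge (by linarith) (by linarith) _ L n (by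
      rw [zero_mul]
      exact mul_nonpos_of_nonneg_of_nonpos (sub_nonneg.mpr (mem_filter.mp hn).2)
        (sub_nonpos.mpr (log_le_log (by linarith) (by linarith))))⟩
  rw [add_zero, neg_mul, exp_neg, mul_inv_le_iff₀ (exp_pos _)] at h7
  rw [← card_filter_add_card_filter_not (s := A L) (fun n => |n| ≤ 2 ^ L'),
    ← card_filter_add_card_filter_not (s := (A L).filter fun n => ¬ |n| ≤ 2 ^ L')
      (fun n => (cnt (wd a L n) : ℝ) ≤ (p - ζ) * L), Nat.cast_add, Nat.cast_add, add_mul, add_mul]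
  refine add_le_add (h6.trans ?_) (add_le_add (h7.trans ?_) (h5.trans ?_))
  · rw [mul_assoc (3 / p), ← exp_add]
    refine mul_le_mul_of_nonneg_left (exp_le_exp.mpr ?_) (by positivity)
    have k1 := mul_le_mul_of_nonneg_right hδ4 hL0
    have k2 := mul_le_mul_of_nonneg_right hη2 hL0
    have k3 : -log (1 - p) / (2 * m) * L = -log (1 - p) * (L / m) / 2 := by field_simp
    have k4 := mul_le_mul_of_nonneg_left hc1 (show 0 ≤ η * L by positivity)
    rw [k3] at k1 k2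
    linarith [mul_le_mul_of_nonneg_right e3.2 (neg_nonneg.mpr hκ.le),
      congrArg (· * (L : ℝ)) hH]
  · exact mul_le_mul_of_nonneg_left (exp_le_exp.mpr (mul_le_mul_of_nonneg_right
      (by linarith) hL0)) (by norm_num)
  · rw [e1]
    exact mul_le_mul_of_nonneg_left (exp_le_exp.mpr (mul_le_mul_of_nonneg_right
      (by linarith) hL0)) hC

end Pool.Agent.Lib.MP_dee342_nt.Iv
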