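import Pool.Agent.Lib.MP_dee342_nt.Iv.Base
import Pool.Agent.Lib.MP_dee342_nt.Ex.Bad

/-! Integers near an arbitrary centre with many odd steps among the first `m` and `4 m`. -/

set_option autoImplicit false

namespace Pool.Agent.Lib.MP_dee342_nt.Iv

open Finset Real Pool.Agent.Lib.MP_dee342_nt.Count Pool.Agent.Lib.MP_dee342_nt.Ex

theorem cls (m k : ℕ) (hk : k + 3 ≤ m) (u : ℤ) (hu : (2 : ℤ) ^ (m * 4) ∣ 3 * u - 1)
    (σ : Fin 4 → ℕ) (U : Fin 4 → Finset (Fin m → Bool)) (hU : ∀ b, ∀ v ∈ U b, cnt v = σ b)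
    (S : Fin 4 → ℝ) (R : ℝ) (hR : 0 ≤ R) (hS : ∏ b, S b ≤ R ^ 4)
    (H : ∀ (j : ℕ) (b : Fin 4), ∑ i ∈ range (2 ^ k), ‖∑ v ∈ U b,
      zz m u (PS (ex σ) (b + 1)) b ((j : ℤ) - (i : ℤ)) ^ (phi 3 m v).toNat‖ ^ 4 ≤ S b)
    (c : ℤ) (A : Finset ℤ) (hA : ∀ n ∈ A, |n - c| ≤ 2 ^ (3 * m) ∧ ∀ b, bw 3 m 4 n b ∈ U b) :
    (A.card : ℝ) * 2 ^ k ≤ 6 * R := by
  classical
  let F : (Fin 4 → Fin m → Bool) → ℝ := fun w =>
    if w ∈ Fintype.piFinset U then Fej (2 ^ k) (Phi 3 u w / 2 ^ (m * 4) + c / 2 ^ (m * 4)) else 0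
  have hF : ∀ w, 0 ≤ F w := fun w => by
    simp only [F]
    split_ifs
    · exact Fej_nonneg _ _
    · exact le_rfl
  have e1 : (A.card : ℝ) * ((2 ^ k) ^ 2 / 2) ≤ ∑ n ∈ A, F (bw 3 m 4 n) := by
    rw [← nsmul_eq_mul]
    refine card_nsmul_le_sum _ _ _ fun n hn => ?_
    simp only [F]
    rw [if_pos (Fintype.mem_piFinset.2 (hA n hn).2)]
    exact fej_near (a := 3) (by decide) m 4 k _ hu (by omega) (hA n hn).1
  have e2 := Iv.sum_bw_le (a := 3) (by decide) m 4 c A (fun n hn => (hA n hn).1.trans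
    (pow_le_pow_right₀ (by norm_num) (by omega))) F hF
  have key : ∀ ξ : ℤ, ∑ w ∈ Fintype.piFinset U,
      cos (2 * π * (ξ * (Phi 3 u w / 2 ^ (m * 4) + c / 2 ^ (m * 4)))) ≤
      ∏ b : Fin 4, ‖∑ v ∈ U b, zz m u (PS (ex σ) (b + 1)) b ξ ^ (phi 3 m v).toNat‖ := by
    intro ξ
    rw [← norm_prod, prod_univ_sum]
    have h1 := shift_cos (Fintype.piFinset U) (fun _ => 1)
      (fun w => ξ * (Phi 3 u w / 2 ^ (m * 4))) (ξ * (c / 2 ^ (m * 4)))
    simp only [one_mul, Complex.ofReal_one, ← mul_add] at h1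
    refine h1.trans (le_of_eq (congrArg _ ?_))
    refine sum_congr rfl fun w hw => ?_
    have h2 : (fun b => cnt (w b)) = σ := funext fun b => hU b _ (Fintype.mem_piFinset.1 hw b)
    simp only [zz, ← cls_pow]
    rw [← ee_sum, Phi, h2]
    congr 1
    push_cast
    rw [sum_div, mul_sum]
    refine sum_congr rfl fun b _ => ?_
    have h3 : (((phi 3 m (w b)).toNat : ℕ) : ℝ) = phi 3 m (w b) := by
      exact_mod_cast congrArg (Int.cast (R := ℝ)) (Int.toNat_of_nonneg (phi_bound le_rfl m _).1)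
    rw [h3]
    ring
  have e3 : ∑ w, F w ≤ 2 ^ k * R := by
    calc _ = ∑ j ∈ range (2 ^ k), ∑ i ∈ range (2 ^ k), ∑ w ∈ Fintype.piFinset U,
          cos (2 * π * (((j : ℤ) - (i : ℤ) : ℤ) *
            (Phi 3 u w / 2 ^ (m * 4) + c / 2 ^ (m * 4)))) := by
          rw [sum_congr rfl fun j _ => sum_comm, sum_comm]
          simp only [F, sum_ite_mem, univ_inter, Fej]
      _ ≤ ∑ _j ∈ range (2 ^ k), R := by
          refine sum_le_sum fun j _ => (sum_le_sum fun i _ => key _).trans ?_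
          refine le_of_pow_le_pow_left₀ (n := 4) (by norm_num) hR ((cls_four _ _).trans ?_)
          exact (prod_le_prod (fun b _ => by positivity) fun b _ => H j b).trans hS
      _ = _ := by simp
  refine le_of_mul_le_mul_left ?_ (show (0 : ℝ) < 2 ^ k by positivity)
  push_cast at e2
  linarith

theorem core4 (ε : ℝ) (hε : 0 < ε) : ∃ m₁ : ℕ, ∀ m ≥ m₁, ∀ e : ℕ, e + 3 ≤ m → ∀ (c : ℤ)
    (A : Finset ℤ), (∀ n ∈ A, |n - c| ≤ 2 ^ (3 * m) ∧ 2 ^ m ≤ 2 ^ e * 3 ^ cnt (wd 3 m n) ∧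
      2 ^ (4 * m) ≤ 2 ^ e * 3 ^ cnt (wd 3 (4 * m) n)) →
    (A.card : ℝ) ≤ 5760 * (m + 1) ^ 13 * exp (ε * m) * 4 ^ e * (70681 / 10000) ^ m := by
  classical
  obtain ⟨m₁, h⟩ := grp ε hε
  refine ⟨m₁, fun m hm e he c A hA => ?_⟩
  obtain ⟨k, hk⟩ : ∃ k, m = k + (e + 3) := ⟨m - (e + 3), by omega⟩
  obtain ⟨u, hu⟩ := exists_inv (a := 3) (by decide) (m * 4)
  choose l hl r hr h1 h2 h3 using split m
  let g : (Fin m → Bool) → ℕ × ℕ × ℕ := fun v => (cnt v, l v, r v)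
  let κ : ℤ → Fin 4 → ℕ × ℕ × ℕ := fun n b => g (bw 3 m 4 n b)
  have hκ : ∀ n ∈ A, κ n ∈ Fintype.piFinset fun _ : Fin 4 =>
      range (m + 1) ×ˢ range (m + 1) ×ˢ range (m + 1) := fun n _ =>
    Fintype.mem_piFinset.2 fun b => by
      simp only [κ, g, mem_product, mem_range, Nat.lt_succ_iff]
      exact ⟨cnt_le _, hl _, (hr _).trans (cnt_le _)⟩
  rw [card_eq_sum_card_fiberwise hκ, Nat.cast_sum]
  refine (sum_le_card_nsmul _ _ (5760 * (m + 1) * exp (ε * m) * 4 ^ e * (70681 / 10000) ^ m)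
    fun y _ => ?_).trans (le_of_eq ?_)
  swap
  · simp only [Fintype.card_piFinset, card_product, card_range, prod_const, card_univ,
      Fintype.card_fin, nsmul_eq_mul]
    push_cast
    ring
  rcases (A.filter fun n => κ n = y).eq_empty_or_nonempty with h0 | ⟨n, hn⟩
  · rw [h0, card_empty, Nat.cast_zero]
    positivity
  obtain ⟨hn', rfl⟩ := mem_filter.1 hn
  obtain ⟨-, a2, a3⟩ := hA n hn'
  let σ : Fin 4 → ℕ := fun b => cnt (bw 3 m 4 n b)
  have hPS : ∀ b ≤ 4, PS (ex σ) b = cnt (wd 3 (m * b) n) := fun b hb => by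
    induction b with
    | zero => simp [PS, cnt_wd]
    | succ b ih =>
      rw [PS, sum_range_succ, ← PS, ih (by omega), Nat.mul_succ, cnt_add, ex,
        dif_pos (show b < 4 from hb)]
      rfl
  have h4 := Iv.cls m k (by omega) u hu σ (fun b => univ.filter fun v => g v = κ n b)
    (fun b v hv => congrArg Prod.fst (mem_filter.1 hv).2)
    (fun b => 120 * (m + 1) * exp (ε * m) * (3562 / 100) ^ m / ((75 / 52) ^ 4) ^ σ b)
    (120 * (m + 1) * exp (ε * m) * (3562 / 100) ^ m * 2 ^ e / (25198 / 10000) ^ m)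
    (by positivity) ?_ (fun j b => h m hm u hu k _ b (σ b) (l (bw 3 m 4 n b)) (r (bw 3 m 4 n b)) j
      ?_ b.2 ?_ (by omega) (hl _) (hr _) (h1 _) _ fun v hv => ?_) c
    (A.filter fun x => κ x = κ n)
    fun x hx => ⟨(hA x (mem_filter.1 hx).1).1, fun b =>
      mem_filter.2 ⟨mem_univ _, congrFun (mem_filter.1 hx).2 b⟩⟩
  · refine le_of_mul_le_mul_right (h4.trans ?_) (show (0 : ℝ) < 2 ^ k by positivity)
    have b1 : (3562 / 100 : ℝ) ^ m ≤ (70681 / 10000) ^ m * 2 ^ m * (25198 / 10000) ^ m := by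
      rw [← mul_pow, ← mul_pow]
      exact pow_le_pow_left₀ (by norm_num) (by norm_num) _
    have b2 : (2 : ℝ) ^ m = 2 ^ k * (2 ^ e * 8) := by
      rw [hk, pow_add, pow_add]
      norm_num
    have b3 : (4 : ℝ) ^ e = 2 ^ e * 2 ^ e := by
      rw [← mul_pow]
      norm_num
    rw [← mul_div_assoc, div_le_iff₀ (by positivity), b3]
    rw [b2] at b1
    exact le_trans (le_of_eq (by ring)) ((mul_le_mul_of_nonneg_left b1
      (show 0 ≤ 720 * (m + 1) * exp (ε * m) * 2 ^ e by positivity)).trans_eq (by ring))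
  · have b1 : ∑ b, σ b = cnt (wd 3 (4 * m) n) := by
      rw [mul_comm, ← hPS 4 le_rfl, PS, ← Fin.sum_univ_eq_sum_range]
      exact sum_congr rfl fun b _ => by rw [ex, dif_pos b.2]
    rw [prod_div_distrib, prod_pow_eq_pow_sum, b1, prod_const, card_univ, Fintype.card_fin,
      div_pow (_ * 2 ^ e), mul_pow _ (2 ^ e), mul_div_assoc, div_eq_mul_one_div (_ ^ 4)]
    refine mul_le_mul_of_nonneg_left ?_ (by positivity)
    generalize cnt (wd 3 (4 * m) n) = K at a3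
    rw [div_le_div_iff₀ (by positivity) (by positivity), one_mul]
    refine le_of_pow_le_pow_left₀ three_ne_zero (by positivity) ?_
    have b2 : ((2 : ℝ) ^ (4 * m)) ^ 4 ≤ (2 ^ e * 3 ^ K) ^ 4 := by
      exact_mod_cast Nat.pow_le_pow_left a3 4
    calc _ = ((25198 / 10000 : ℝ) ^ 3) ^ (4 * m) := by
          simp only [← pow_mul]
          congr 1
          ring
      _ ≤ (2 ^ 4) ^ (4 * m) := pow_le_pow_left₀ (by norm_num) (by norm_num) _
      _ ≤ (2 ^ e) ^ 4 * (3 ^ 4) ^ K := by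
          rw [pow_right_comm 2 4, pow_right_comm 3 4, ← mul_pow]
          exact b2
      _ ≤ ((2 ^ e) ^ 4) ^ 3 * (((75 / 52) ^ 4) ^ 3) ^ K := by
          refine mul_le_mul (le_self_pow₀ (one_le_pow₀ (one_le_pow₀ one_le_two)) three_ne_zero)
            (pow_le_pow_left₀ (by norm_num) (by norm_num) _) (by positivity) (by positivity)
      _ = _ := by rw [mul_pow, pow_right_comm _ 3 K]
  · rw [hPS _ b.2]
    exact (cnt_le _).trans (by nlinarith [b.2])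
  · rw [hPS _ b.2, show m * (b + 1) = m + m * b by ring, cnt_add]
    refine le_trans (Nat.le_of_mul_le_mul_left (le_trans ?_ a2) (Nat.two_pow_pos e))
      (Nat.pow_le_pow_right (by norm_num) (Nat.le_add_right _ _))
    rw [← pow_add]
    exact Nat.pow_le_pow_right two_pos (by omega)
  · have b1 := (mem_filter.1 hv).2
    simp only [κ, g, Prod.mk.injEq] at b1
    rw [← b1.2.1, ← b1.2.2]
    exact ⟨b1.1, h2 v, (h3 v _ _).trans (by rw [b1.1])⟩

theorem bad2 : ∃ m ≥ 9, ∃ l₀ : ℕ, ∃ d > 0, ∃ C ≥ 0, d ≤ 0.9405 * log 2 / 2 ∧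
    ∀ l ≥ l₀, ∀ (c : ℤ) (A : Finset ℤ), (∀ a ∈ A, |a - c| ≤ 2 ^ l ∧
      2 ^ (l / 3 + 1) ≤ 2 ^ (l / m + 1) * 3 ^ cnt (wd 3 (l / 3 + 1) a) ∧
      2 ^ (4 * (l / 3 + 1)) ≤ 2 ^ (l / m + 1) * 3 ^ cnt (wd 3 (4 * (l / 3 + 1)) a)) →
      (A.card : ℝ) ≤ C * exp ((0.9405 * log 2 - d) * l) := by
  have l2 := log_pos (one_lt_two (α := ℝ))
  obtain ⟨δ, hδ⟩ : ∃ δ : ℝ, δ = (0.9405 - 79 / 84) / 4 * log 2 := ⟨_, rfl⟩
  have hd : 0 < δ := by rw [hδ]; exact mul_pos (by norm_num) l2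
  obtain ⟨m₁, hm⟩ := Iv.core4 δ hd
  refine ⟨1000000, by norm_num, 3 * m₁ + 40, δ, hd,
    5760 * ((Nat.factorial 13 : ℕ) / δ ^ 13) * 4 * 8, by positivity, by rw [hδ]; linarith,
    fun l hl c A hA => ?_⟩
  have h0 := hm (l / 3 + 1) (by omega) (l / 1000000 + 1) (by omega) c A fun a ha =>
    ⟨(hA a ha).1.trans (pow_le_pow_right₀ (by norm_num) (by omega)), (hA a ha).2⟩
  refine h0.trans ?_
  have hM : ((l / 3 + 1 : ℕ) : ℝ) + 1 ≤ l := by exact_mod_cast (by omega : l / 3 + 1 + 1 ≤ l)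
  have hM3 : 3 * ((l / 3 + 1 : ℕ) : ℝ) ≤ l + 3 := by
    exact_mod_cast (by omega : 3 * (l / 3 + 1) ≤ l + 3)
  have hq : 1000000 * ((l / 1000000 : ℕ) : ℝ) ≤ l := by
    exact_mod_cast (by omega : 1000000 * (l / 1000000) ≤ l)
  have hl0 : (0 : ℝ) ≤ l := Nat.cast_nonneg l
  generalize l / 3 + 1 = M at *
  generalize l / 1000000 = q at *
  have e1 : ((M : ℝ) + 1) ^ 13 ≤ (Nat.factorial 13 : ℕ) / δ ^ 13 * exp (δ * l) := by
    have h1 := pow_div_factorial_le_exp (δ * l) (by positivity) 13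
    rw [div_le_iff₀ (by positivity), mul_pow] at h1
    refine (pow_le_pow_left₀ (by positivity) hM 13).trans ?_
    rw [div_mul_eq_mul_div, le_div_iff₀ (by positivity)]
    linarith
  have e2 : exp (δ * M) ≤ exp (δ * l) :=
    exp_le_exp.mpr (mul_le_mul_of_nonneg_left (by linarith) hd.le)
  have e3 : (4 : ℝ) ^ (q + 1) ≤ 4 * exp (δ * l) := by
    have h1 : (4 : ℝ) = exp (2 * log 2) := by
      rw [two_mul, exp_add, exp_log (by norm_num)]; norm_num
    have h2 : (4 : ℝ) ^ q ≤ exp (δ * l) := by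
      rw [h1, ← exp_nat_mul, exp_le_exp, hδ]
      nlinarith [mul_le_mul_of_nonneg_right hq l2.le, mul_nonneg hl0 l2.le]
    rw [pow_succ]
    linarith
  have e4 : (70681 / 10000 : ℝ) ^ M ≤ 8 * exp (79 / 84 * log 2 * l) := by
    have h1 : log (70681 / 10000) ≤ 79 / 28 * log 2 := by
      have h2 := log_le_log (by positivity)
        (show (70681 / 10000 : ℝ) ^ 28 ≤ 2 ^ 79 by norm_num)
      rw [log_pow, log_pow] at h2
      push_cast at h2
      linarith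
    have h3 : (8 : ℝ) = exp (3 * log 2) := by
      rw [show (3 : ℝ) * log 2 = log 2 + log 2 + log 2 by ring, exp_add, exp_add,
        exp_log (by norm_num)]
      norm_num
    rw [← exp_log (show (0 : ℝ) < 70681 / 10000 by norm_num), ← exp_nat_mul, h3, ← exp_add,
      exp_le_exp]
    nlinarith [mul_le_mul_of_nonneg_left h1 (Nat.cast_nonneg (α := ℝ) M),
      mul_le_mul_of_nonneg_right hM3 l2.le]
  have e5 : exp ((0.9405 * log 2 - δ) * l) =
      exp (δ * l) * exp (δ * l) * exp (δ * l) * exp (79 / 84 * log 2 * l) := by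
    rw [← exp_add, ← exp_add, ← exp_add, hδ]
    congr 1
    ring
  rw [e5]
  calc 5760 * ((M : ℝ) + 1) ^ 13 * exp (δ * M) * 4 ^ (q + 1) * (70681 / 10000) ^ M
      ≤ 5760 * ((Nat.factorial 13 : ℕ) / δ ^ 13 * exp (δ * l)) * exp (δ * l) * (4 * exp (δ * l)) *
        (8 * exp (79 / 84 * log 2 * l)) := by gcongr
    _ = _ := by ring

end Pool.Agent.Lib.MP_dee342_nt.Iv
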