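import Pool.Agent.Lib.MP_dee342_nt.Iv.Three

/-! The exponent `0.9405` for the asymptotic phases of the integers of an interval. -/

set_option autoImplicit false

namespace Pool.Agent.Lib.MP_dee342_nt.Iv

open Finset Real Filter Pool.Agent.Lib.MP_dee342_nt.Count

theorem exists_phase (f : ℤ → ℤ) : ∃ φ : ℤ → ℤ, ∀ y, ∀ p ∈ Function.periodicPts f,
    (∃ i, f^[i] y = f^[i] p) → φ y = p := by
  classical
  refine ⟨fun y => if h : ∃ p ∈ Function.periodicPts f, ∃ i, f^[i] y = f^[i] p then h.choose else 0,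
    fun y p hp ⟨i, hi⟩ => ?_⟩
  have h : ∃ p ∈ Function.periodicPts f, ∃ i, f^[i] y = f^[i] p := ⟨p, hp, i, hi⟩
  simp only [dif_pos h]
  obtain ⟨a, j, b⟩ := h.choose_spec
  refine ((Function.bijOn_periodicPts f).injOn.iterate (Function.bijOn_periodicPts f).mapsTo
    (i + j)) a hp ?_
  rw [Function.iterate_add_apply, ← b, ← Function.iterate_add_apply, add_comm,
    Function.iterate_add_apply, hi, ← Function.iterate_add_apply]

theorem phases : ∃ C : ℝ, ∀ x : ℝ, 1 ≤ x → ∀ (c : ℤ) (Q : Finset ℤ),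
    (∀ p ∈ Q, p ∈ Function.periodicPts (T 3) ∧ ∃ y : ℤ, |(y : ℝ) - c| ≤ x ∧
      ∃ i, (T 3)^[i] y = (T 3)^[i] p) → (Q.card : ℝ) ≤ C * x ^ (0.9405 : ℝ) := by
  classical
  obtain ⟨m, hm, l₀, d, hd, C, hC, hd2, h⟩ := Iv.bad2
  obtain ⟨φ, hφ⟩ := exists_phase (T 3)
  have hP := Function.bijOn_periodicPts (T 3)
  obtain ⟨S, hS⟩ : ∃ S : Set ℤ, ∀ y, y ∈ S ↔
      ∃ p ∈ Function.periodicPts (T 3), ∃ i, (T 3)^[i] y = (T 3)^[i] p :=
    ⟨{y | ∃ p ∈ Function.periodicPts (T 3), ∃ i, (T 3)^[i] y = (T 3)^[i] p}, fun _ => Iff.rfl⟩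
  have hS1 : ∀ j, ∀ y ∈ S, φ y ∈ Function.periodicPts (T 3) ∧ (T 3)^[j] y ∈ S ∧
      φ ((T 3)^[j] y) = (T 3)^[j] (φ y) := fun j y hy => by
    obtain ⟨p, hp, i, hi⟩ := (hS y).1 hy
    have e : (T 3)^[i] ((T 3)^[j] y) = (T 3)^[i] ((T 3)^[j] p) := by
      rw [Function.Commute.iterate_iterate_self _ i j, hi,
        Function.Commute.iterate_iterate_self _ j i]
    rw [hφ y p hp ⟨i, hi⟩]
    exact ⟨hp, (hS _).2 ⟨_, hP.mapsTo.iterate j hp, i, e⟩, hφ _ _ (hP.mapsTo.iterate j hp) ⟨i, e⟩⟩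
  have l2 := log_pos (one_lt_two (α := ℝ))
  set H : ℝ := 0.9405 * log 2 with hH
  have hH0 : 0 < H := by positivity
  have hdH : d < H := by linarith
  obtain ⟨C', hC', hrec⟩ := Iv.recur (r := exp ((H - d) * (1 : ℕ)))
    (one_lt_exp_iff.mpr (mul_pos (by linarith) (by norm_num))) hC m (l₀ + 30) (by omega)
  refine ⟨C' * exp ((H - d) * (1 : ℕ)), fun x hx c Q hQ => ?_⟩
  let A : ℕ → ℤ → Finset ℤ := fun L c => (Icc (c - 2 ^ L) (c + 2 ^ L)).filter (· ∈ S)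
  have hA : ∀ L c n, n ∈ A L c ↔ |n - c| ≤ 2 ^ L ∧ n ∈ S := fun L c n => by
    simp only [A, mem_filter, mem_Icc, abs_le, neg_le_sub_iff_le_add, sub_le_iff_le_add,
      add_comm c]
  have hx2 : x ^ (H / log 2 - d / log 2) ≤ x ^ (0.9405 : ℝ) := by
    refine rpow_le_rpow_of_exponent_le hx ?_
    rw [hH, mul_div_assoc, div_self l2.ne', mul_one]
    linarith [div_pos hd l2]
  refine (final (E := 1) le_rfl hdH.le hC' (fun D => ((A D c).image φ).card)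
    (fun D => hrec (fun D c => ((A D c).image φ).card) (fun D c => ?_)
      (fun L hL B hB0 hB c => ?_) D c) hx).elim fun D h3 => le_trans
      (Nat.cast_le.mpr (card_le_card fun p hp => (hQ p hp).2.elim fun y hy => mem_image.mpr
        ⟨y, (hA _ c y).mpr ⟨mem_box (by exact_mod_cast hy.1) (by simpa using h3.1),
          (hS y).2 ⟨p, (hQ p hp).1, hy.2⟩⟩, hφ y p (hQ p hp).1 hy.2⟩))
      (h3.2.trans (mul_le_mul_of_nonneg_left hx2 (by positivity)))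
  · exact (Nat.cast_le.mpr card_image_le).trans
      (Iv.card_box _ c _ fun n hn => ((hA _ c n).mp hn).1)
  have hm9 : L / m ≤ L / 9 := Nat.div_le_div_left hm (by norm_num)
  have hin : ∀ j, j ≤ 4 * (L / 3 + 1) → ((((A L c).filter fun n =>
      ¬ 2 ^ j ≤ 2 ^ (L / m + 1) * 3 ^ cnt (wd 3 j n)).image φ).card : ℝ) ≤ (j + 1 : ℕ) * B := by
    intro j hj
    rw [← biUnion_filter_eq_of_maps_to (s := (A L c).filter fun n =>
      ¬ 2 ^ j ≤ 2 ^ (L / m + 1) * 3 ^ cnt (wd 3 j n)) (f := fun n => cnt (wd 3 j n))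
      (t := range (j + 1)) fun n _ => mem_range.mpr (Nat.lt_succ_of_le (cnt_le _)),
      biUnion_image]
    refine (Nat.cast_le.mpr card_biUnion_le).trans ?_
    rw [Nat.cast_sum]
    refine (sum_le_card_nsmul _ _ B fun s _ => le_trans (Nat.cast_le.mpr ?_)
      (hB (3 ^ s * c / 2 ^ j))).trans (by rw [card_range, nsmul_eq_mul])
    refine card_le_card_of_injOn (T 3)^[j] (fun p hp => ?_)
      ((hP.injOn.iterate hP.mapsTo j).mono fun p hp => ?_)
    · obtain ⟨n, hn, rfl⟩ := mem_image.mp (mem_coe.mp hp)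
      obtain ⟨h1, rfl⟩ := mem_filter.mp hn
      obtain ⟨h2, h3⟩ := mem_filter.mp h1
      obtain ⟨h4, h5⟩ := (hA _ _ _).mp h2
      refine mem_coe.mpr (mem_image.mpr ⟨(T 3)^[j] n, (hA _ _ _).mpr ⟨?_, (hS1 j n h5).2.1⟩,
        (hS1 j n h5).2.2⟩)
      rw [show L - L / m = L - (L / m + 1) + 1 by omega]
      exact near h4 h3 (by omega)
    · obtain ⟨n, hn, rfl⟩ := mem_image.mp (mem_coe.mp hp)
      exact (hS1 j n ((hA _ _ _).mp (mem_filter.mp (mem_filter.mp hn).1).1).2).1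
  let P : ℕ → ℤ → Prop := fun j n => 2 ^ j ≤ 2 ^ (L / m + 1) * 3 ^ cnt (wd 3 j n)
  have h5 := h L (by omega) c ((A L c).filter fun n => P (L / 3 + 1) n ∧ P (4 * (L / 3 + 1)) n)
    fun n hn => ⟨((hA _ _ _).mp (mem_filter.mp hn).1).1, (mem_filter.mp hn).2⟩
  have h7 : A L c ⊆ (((A L c).filter fun n => ¬ P (L / 3 + 1) n) ∪
      (A L c).filter fun n => ¬ P (4 * (L / 3 + 1)) n) ∪
      (A L c).filter fun n => P (L / 3 + 1) n ∧ P (4 * (L / 3 + 1)) n := by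
    intro n hn
    simp only [mem_union, mem_filter, hn, true_and]
    tauto
  have h6 := card_le_card (image_subset_image (f := φ) h7)
  rw [image_union, image_union] at h6
  have h8 := (Nat.cast_le (α := ℝ)).mpr (h6.trans ((card_union_le _ _).trans
    (Nat.add_le_add (card_union_le _ _) card_image_le)))
  have h9 : exp ((H - d) * L) = exp ((H - d) * (1 : ℕ)) ^ L := by
    rw [← exp_nat_mul, Nat.cast_one, mul_one, mul_comm]
  have h10 : ((L / 3 + 1 + 1 : ℕ) : ℝ) + (4 * (L / 3 + 1) + 1 : ℕ) ≤ 3 * L := by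
    exact_mod_cast (by omega : L / 3 + 1 + 1 + (4 * (L / 3 + 1) + 1) ≤ 3 * L)
  rw [Nat.cast_add, Nat.cast_add] at h8
  rw [← h9]
  linarith [hin (L / 3 + 1) (by omega), hin _ le_rfl, mul_le_mul_of_nonneg_right h10 hB0]

/-- A bound for the phases of an interval bounds the cycles reached from it. -/
theorem cycles_of_phases (f : ℤ → ℤ) {x B : ℝ} {c : ℤ} (h : ∀ Q : Finset ℤ,
    (∀ p ∈ Q, p ∈ Function.periodicPts f ∧ ∃ y : ℤ, |(y : ℝ) - c| ≤ x ∧
      ∃ i, f^[i] y = f^[i] p) → (Q.card : ℝ) ≤ B) :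
    ((Function.periodicOrbit f '' {p ∈ Function.periodicPts f |
      ∃ y : ℤ, |(y : ℝ) - c| ≤ x ∧ ∃ i, f^[i] y = p}).ncard : ℝ) ≤ B := by
  obtain ⟨φ, hφ⟩ := exists_phase f
  have hP := Function.bijOn_periodicPts f
  have fin : {p ∈ Function.periodicPts f | ∃ y : ℤ, |(y : ℝ) - c| ≤ x ∧
      ∃ i, f^[i] y = f^[i] p}.Finite :=
    ((Set.finite_Icc (c - ⌈x⌉) (c + ⌈x⌉)).image φ).subset fun p ⟨hp, y, hy, hi⟩ => by
      have h6 : |y - c| ≤ ⌈x⌉ := by exact_mod_cast hy.trans (Int.le_ceil x)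
      exact ⟨y, ⟨by linarith [(abs_le.mp h6).1], by linarith [(abs_le.mp h6).2]⟩, hφ y p hp hi⟩
  refine le_trans (Nat.cast_le.mpr ?_) (h fin.toFinset fun p hp => fin.mem_toFinset.mp hp)
  rw [← Set.ncard_eq_toFinset_card _ fin]
  refine (Set.ncard_le_ncard ?_ (fin.image (Function.periodicOrbit f))).trans
    (Set.ncard_image_le fin)
  rintro _ ⟨q, ⟨hq, y, hy, i, hi⟩, rfl⟩
  obtain ⟨p, hp, e⟩ := (hP.iterate i).surjOn hq
  exact ⟨p, ⟨hp, y, hy, i, hi.trans e.symm⟩, by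
    rw [← e, Function.periodicOrbit_apply_iterate_eq hp]⟩

end Pool.Agent.Lib.MP_dee342_nt.Iv
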