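import Pool.Agent.Lib.MP_dee342_nt.Iv.Four

/-! The exponent `0.9405` in every interval. -/

set_option autoImplicit false

namespace Pool.Agent.Lib.MP_dee342_nt.Iv

open Finset Real Filter Pool.Agent.Lib.MP_dee342_nt.Count

theorem near {j L e : ℕ} {c n : ℤ} (h1 : |n - c| ≤ 2 ^ L)
    (h2 : ¬ 2 ^ j ≤ 2 ^ e * 3 ^ cnt (wd 3 j n)) (hL : j / 2 + e + 1 ≤ L) :
    |(T 3)^[j] n - 3 ^ cnt (wd 3 j n) * c / 2 ^ j| ≤ 2 ^ (L - e + 1) := by
  have h3 := iter_eq (a := 3) (by decide) j n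
  obtain ⟨h4, h5⟩ := phi_bound (a := 3) le_rfl j (wd 3 j n)
  have h6 := cnt_le (wd 3 j n)
  generalize cnt (wd 3 j n) = s at *
  obtain ⟨q, rfl⟩ : ∃ q, L = q + e := ⟨L - e, by omega⟩
  rw [Nat.add_sub_cancel]
  have p1 : (0 : ℤ) < 2 ^ j := by positivity
  have p2 : (0 : ℤ) < 3 ^ s := by positivity
  have h7 : (2 : ℤ) ^ e * 3 ^ s ≤ 2 ^ j := by exact_mod_cast (not_le.mp h2).le
  have h8 : (2 : ℤ) ^ (j - s) * 3 ^ s ≤ 2 ^ j * 2 ^ (j / 2) := by
    rcases le_total s (j - s) with h | h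
    · have e1 : (3 : ℤ) ^ s ≤ 2 ^ (2 * s) := by
        rw [pow_mul]
        exact pow_le_pow_left₀ (by norm_num) (by norm_num) s
      refine (mul_le_mul_of_nonneg_left e1 (by positivity)).trans ?_
      rw [← pow_add, ← pow_add]
      exact pow_le_pow_right₀ one_le_two (by omega)
    · rw [mul_comm]
      exact mul_le_mul ((le_mul_of_one_le_left p2.le (one_le_pow₀ one_le_two)).trans h7)
        (pow_le_pow_right₀ one_le_two (by omega)) (by positivity) p1.le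
  have h9 : (2 : ℤ) ^ j * (2 ^ (j / 2) * 2) ≤ 2 ^ j * 2 ^ q := by
    rw [← pow_succ]
    exact mul_le_mul_of_nonneg_left (pow_le_pow_right₀ one_le_two (by omega)) p1.le
  have h10 := mul_le_mul_of_nonneg_left h7 (show (0 : ℤ) ≤ 2 ^ q by positivity)
  have h11 := Int.mul_ediv_add_emod (3 ^ s * c) (2 ^ j)
  have h12 := Int.emod_nonneg (3 ^ s * c) p1.ne'
  have h13 := Int.emod_lt_of_pos (3 ^ s * c) p1
  have h14 := mul_le_mul_of_nonneg_left (abs_le.mp h1).1 p2.le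
  have h15 := mul_le_mul_of_nonneg_left (abs_le.mp h1).2 p2.le
  have h16 : (2 : ℤ) ^ j ≤ 2 ^ j * 2 ^ (j / 2) :=
    le_mul_of_one_le_right p1.le (one_le_pow₀ one_le_two)
  rw [pow_add] at h14 h15
  rw [pow_succ, abs_le]
  constructor <;> refine le_of_mul_le_mul_left ?_ p1 <;> linarith

theorem recur {r C : ℝ} (hr : 1 < r) (hC : 0 ≤ C) (m D0 : ℕ) (hm : 1 ≤ m) :
    ∃ C' ≥ 0, ∀ f : ℕ → ℤ → ℝ, (∀ D c, f D c ≤ 3 * 2 ^ D) →
      (∀ D ≥ D0, ∀ B ≥ 0, (∀ c, f (D - D / m) c ≤ B) → ∀ c, f D c ≤ 3 * D * B + C * r ^ D) →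
      ∀ D c, f D c ≤ C' * r ^ D := by
  have hm' : (0 : ℝ) < 12 * m := by positivity
  obtain ⟨k, hk⟩ := eventually_atTop.mp ((tendsto_pow_const_div_const_pow_of_one_lt 1 hr).eventually
    (gt_mem_nhds (one_div_pos.mpr hm')))
  refine ⟨2 * C + 3 * 2 ^ (D0 + (k + 1) * m), by positivity, fun f h1 h2 D => ?_⟩
  have hb' : (0 : ℝ) ≤ 3 * 2 ^ (D0 + (k + 1) * m) := by positivity
  induction D using Nat.strong_induction_on with
  | _ D ih =>
    intro c
    rcases le_total D (D0 + (k + 1) * m) with h | h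
    · refine (h1 D c).trans (le_trans ?_
        (le_mul_of_one_le_right (by positivity) (one_le_pow₀ hr.le)))
      linarith [pow_le_pow_right₀ (one_le_two (α := ℝ)) h]
    · have h3 : k + 1 ≤ D / m := (Nat.le_div_iff_mul_le hm).mpr (by omega)
      have h4 := Nat.div_le_self D m
      have h5 := h2 D (by omega) _ (by positivity) (ih (D - D / m) (by omega)) c
      have h6 : 6 * D * r ^ (D - D / m) ≤ r ^ D := by
        have e1 := hk (D / m) (by omega)
        rw [pow_one, div_lt_div_iff₀ (by positivity) hm', one_mul] at e1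
        have e2 : D ≤ 2 * (D / m * m) := by
          have := Nat.lt_div_mul_add (a := D) hm
          nlinarith
        have e3 : (D : ℝ) ≤ 2 * ((D / m : ℕ) * m) := by exact_mod_cast e2
        refine (mul_le_mul_of_nonneg_right (show 6 * (D : ℝ) ≤ r ^ (D / m) by linarith)
          (by positivity)).trans ?_
        rw [← pow_add]
        exact pow_le_pow_right₀ hr.le (by omega)
      have h7 := mul_le_mul_of_nonneg_left h6 (add_nonneg (show 0 ≤ 2 * C by positivity) hb')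
      have h8 := mul_nonneg hb' (show 0 ≤ r ^ D by positivity)
      linarith

theorem three : ∃ C : ℝ, ∀ S : Set ℤ, Set.MapsTo (T 3) S S → Set.InjOn (T 3) S →
    ∀ x : ℝ, 1 ≤ x → ∀ c : ℤ,
      ({n | n ∈ S ∧ |(n : ℝ) - c| ≤ x}.ncard : ℝ) ≤ C * x ^ (0.9405 : ℝ) := by
  classical
  obtain ⟨m, hm, l₀, d, hd, C, hC, hd2, h⟩ := Iv.bad2
  have l2 := log_pos (one_lt_two (α := ℝ))
  set H : ℝ := 0.9405 * log 2 with hH
  have hH0 : 0 < H := by positivity
  have hdH : d < H := by linarith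
  obtain ⟨C', hC', hrec⟩ := Iv.recur (r := exp ((H - d) * (1 : ℕ)))
    (one_lt_exp_iff.mpr (mul_pos (by linarith) (by norm_num))) hC m (l₀ + 30) (by omega)
  refine ⟨C' * exp ((H - d) * (1 : ℕ)), fun S hS1 hS2 x hx c => ?_⟩
  let A : ℕ → ℤ → Finset ℤ := fun L c => (Icc (c - 2 ^ L) (c + 2 ^ L)).filter (· ∈ S)
  have hA : ∀ L c n, n ∈ A L c ↔ |n - c| ≤ 2 ^ L ∧ n ∈ S := fun L c n => by
    simp only [A, mem_filter, mem_Icc, abs_le, neg_le_sub_iff_le_add, sub_le_iff_le_add,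
      add_comm c]
  have hx2 : x ^ (H / log 2 - d / log 2) ≤ x ^ (0.9405 : ℝ) := by
    refine rpow_le_rpow_of_exponent_le hx ?_
    rw [hH, mul_div_assoc, div_self l2.ne', mul_one]
    linarith [div_pos hd l2]
  refine (final (E := 1) le_rfl hdH.le hC' (fun D => (A D c).card)
    (fun D => hrec (fun D c => (A D c).card) (fun D c => ?_) (fun L hL B hB0 hB c => ?_) D c)
      hx).elim fun D h3 => le_trans
      (ncard_le fun n hn => (hA _ c n).mpr
        ⟨mem_box (by exact_mod_cast hn.2) (by simpa using h3.1), hn.1⟩)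
      (h3.2.trans (mul_le_mul_of_nonneg_left hx2 (by positivity)))
  · exact Iv.card_box _ c _ fun n hn => ((hA _ c n).mp hn).1
  have hm9 : L / m ≤ L / 9 := Nat.div_le_div_left hm (by norm_num)
  have hin : ∀ j, j ≤ 4 * (L / 3 + 1) → (((A L c).filter fun n =>
      ¬ 2 ^ j ≤ 2 ^ (L / m + 1) * 3 ^ cnt (wd 3 j n)).card : ℝ) ≤ (j + 1 : ℕ) * B := by
    intro j hj
    rw [card_eq_sum_card_fiberwise (f := fun n => cnt (wd 3 j n)) (t := range (j + 1))
      fun n _ => mem_coe.mpr (mem_range.mpr (Nat.lt_succ_of_le (cnt_le _))), Nat.cast_sum]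
    refine (sum_le_card_nsmul _ _ B fun s _ => le_trans (Nat.cast_le.mpr ?_)
      (hB (3 ^ s * c / 2 ^ j))).trans (by rw [card_range, nsmul_eq_mul])
    refine card_le_card_of_injOn (T 3)^[j] (fun n hn => ?_) ((hS2.iterate hS1 j).mono fun n hn =>
      ((hA _ _ _).mp (mem_filter.mp (mem_filter.mp hn).1).1).2)
    obtain ⟨h1, rfl⟩ := mem_filter.mp hn
    obtain ⟨h2, h3⟩ := mem_filter.mp h1
    obtain ⟨h4, h5⟩ := (hA _ _ _).mp h2
    refine mem_coe.mpr ((hA _ _ _).mpr ⟨?_, hS1.iterate j h5⟩)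
    rw [show L - L / m = L - (L / m + 1) + 1 by omega]
    exact near h4 h3 (by omega)
  let P : ℕ → ℤ → Prop := fun j n => 2 ^ j ≤ 2 ^ (L / m + 1) * 3 ^ cnt (wd 3 j n)
  have h5 := h L (by omega) c ((A L c).filter fun n => P (L / 3 + 1) n ∧ P (4 * (L / 3 + 1)) n)
    fun n hn => ⟨((hA _ _ _).mp (mem_filter.mp hn).1).1, (mem_filter.mp hn).2⟩
  have h7 : A L c ⊆ (((A L c).filter fun n => ¬ P (L / 3 + 1) n) ∪
      (A L c).filter fun n => ¬ P (4 * (L / 3 + 1)) n) ∪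
      (A L c).filter fun n => P (L / 3 + 1) n ∧ P (4 * (L / 3 + 1)) n := by
    intro n hn
    simp only [mem_union, mem_filter, hn, true_and]
    tauto
  have h8 := (Nat.cast_le (α := ℝ)).mpr ((card_le_card h7).trans ((card_union_le _ _).trans
    (Nat.add_le_add_right (card_union_le _ _) _)))
  have h9 : exp ((H - d) * L) = exp ((H - d) * (1 : ℕ)) ^ L := by
    rw [← exp_nat_mul, Nat.cast_one, mul_one, mul_comm]
  have h10 : ((L / 3 + 1 + 1 : ℕ) : ℝ) + (4 * (L / 3 + 1) + 1 : ℕ) ≤ 3 * L := by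
    exact_mod_cast (by omega : L / 3 + 1 + 1 + (4 * (L / 3 + 1) + 1) ≤ 3 * L)
  rw [Nat.cast_add, Nat.cast_add] at h8
  rw [← h9]
  linarith [hin (L / 3 + 1) (by omega), hin _ le_rfl, mul_le_mul_of_nonneg_right h10 hB0]

theorem ent : 0.9405 < binEntropy (log 2 / log 3) / log 2 := by
  have l2 := log_pos (one_lt_two (α := ℝ))
  have l3 : 0 < log 3 := log_pos (by norm_num)
  have h1 := log_le_log (by positivity) (show (2 : ℝ) ^ 25 ≤ 3 ^ 16 by norm_num)
  have h2 := log_le_log (by positivity) (show (3 : ℝ) ≤ 2 ^ 2 by norm_num)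
  have h3 := log_le_log (by positivity)
    (show (2 : ℝ) ^ 212 ≤ (25 / 16) ^ 144 * (25 / 9) ^ 81 by norm_num)
  rw [log_mul (by positivity) (by positivity)] at h3
  simp only [log_pow] at h1 h2 h3
  push_cast at h1 h2 h3
  have h4 : log 2 / log 3 ≤ 16 / 25 := by rw [div_le_iff₀ l3]; linarith
  have h5 : 2⁻¹ ≤ log 2 / log 3 := by rw [le_div_iff₀ l3]; linarith
  have h6 := binEntropy_strictAntiOn.antitoneOn ⟨h5, by linarith⟩
    (⟨by norm_num, by norm_num⟩ : (16 / 25 : ℝ) ∈ Set.Icc 2⁻¹ 1) h4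
  rw [lt_div_iff₀ l2]
  refine lt_of_lt_of_le ?_ h6
  rw [binEntropy, show (16 / 25 : ℝ)⁻¹ = 25 / 16 by norm_num,
    show (1 - 16 / 25 : ℝ)⁻¹ = 25 / 9 by norm_num]
  linarith

end Pool.Agent.Lib.MP_dee342_nt.Iv
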